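import Pool.Agent.helper29.NS.SpecC

/-!
# ns:PR: ring energy lemma (from PE, PP, PQ)
-/

namespace NS

open MeasureTheory Filter Topology Set

private theorem prRingOpen (r R : ℝ) : IsOpen (Ring r R) := by
  have h1 : IsOpen {q : ℝ × ℝ | r ^ 2 < q.1 ^ 2 + q.2 ^ 2} :=
    isOpen_lt continuous_const (by fun_prop)
  have h2 : IsOpen {q : ℝ × ℝ | q.1 ^ 2 + q.2 ^ 2 < R ^ 2} :=
    isOpen_lt (by fun_prop) continuous_const
  exact h1.inter h2

private theorem prNormLp (θ s : ℝ) : (lp (θ, s)).1 ^ 2 + (lp (θ, s)).2 ^ 2 = Real.exp s ^ 2 := by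
  have := Real.sin_sq_add_cos_sq θ
  simp only [lp]
  linear_combination (Real.exp s ^ 2) * this

private theorem prNeg1 (a : ℝ × ℝ → ℝ) (q : ℝ × ℝ) : px (fun z => -a z) q = -px a q := by
  simp only [px]
  rw [show (fun z => -a z) = -a from rfl, fderiv_neg]
  simp

private theorem prNeg2 (a : ℝ × ℝ → ℝ) (q : ℝ × ℝ) : py (fun z => -a z) q = -py a q := by
  simp only [py]
  rw [show (fun z => -a z) = -a from rfl, fderiv_neg]
  simp

private theorem prPolar (q : ℝ × ℝ) (hq : 0 < q.1 ^ 2 + q.2 ^ 2) :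
    ∃ θ : ℝ, q = lp (θ, Real.log (Real.sqrt (q.1 ^ 2 + q.2 ^ 2))) := by
  set z : ℂ := ⟨q.1, q.2⟩ with hz
  have hn : ‖z‖ = Real.sqrt (q.1 ^ 2 + q.2 ^ 2) := by
    rw [Complex.norm_def, Complex.normSq_apply]
    congr 1
    simp only [hz]
    ring
  have hs : 0 < Real.sqrt (q.1 ^ 2 + q.2 ^ 2) := Real.sqrt_pos.2 hq
  refine ⟨Complex.arg z, ?_⟩
  simp only [lp, Real.exp_log hs]
  rw [← hn, Complex.norm_mul_cos_arg, Complex.norm_mul_sin_arg]

private theorem prMain (hPE : PE_stmt) (hPP : PP_stmt) (hPQ : PQ_stmt)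
    (a b m n : ℝ × ℝ → ℝ) (ρ δ κ1 κ2 : ℝ) (hρ : 0 < ρ) (hδ : 0 < δ) (hδρ : δ < ρ)
    (ha : ContDiff ℝ 2 a) (hb : ContDiff ℝ 2 b) (hm : ContDiff ℝ 2 m) (hn : ContDiff ℝ 2 n)
    (heq : ∀ q ∈ Ring (ρ - δ) ρ, px a q + py b q = 0 ∧ px m q + py n q = 0 ∧
      px m q * px a q + py m q * px b q + px n q * py a q + py n q * py b q = 0)
    (hz : ∀ q ∈ Circ ρ, m q = 0 ∧ n q = 0) (hk1 : 0 < κ1) (hk2 : κ2 < 0)
    (hg : ∀ θ : ℝ, px a (rot θ (ρ, 0)) = Real.sin θ * Real.cos θ * (κ1 - κ2) ∧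
      py a (rot θ (ρ, 0)) = -(Real.sin θ ^ 2 * κ2 + Real.cos θ ^ 2 * κ1) ∧
      px b (rot θ (ρ, 0)) = Real.cos θ ^ 2 * κ2 + Real.sin θ ^ 2 * κ1 ∧
      py b (rot θ (ρ, 0)) = Real.sin θ * Real.cos θ * (κ2 - κ1)) :
    ∃ ε > 0, ε < ρ ∧ ∀ q ∈ Ring (ρ - ε) ρ, m q = 0 ∧ n q = 0 := by
  obtain ⟨cA, cB, cC, cP, cQ, hper⟩ := hPP a b m n ha hb hm hn
  have hρδ : 0 < ρ - δ := by linarith
  have hmem : ∀ θ s, Real.log ρ - (Real.log ρ - Real.log (ρ - δ)) < s → s < Real.log ρ →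
      lp (θ, s) ∈ Ring (ρ - δ) ρ := by
    intro θ s h1 h2
    have h1' : Real.log (ρ - δ) < s := by linarith
    have e1 : ρ - δ < Real.exp s := by
      rw [← Real.exp_log hρδ]; exact Real.exp_lt_exp.2 h1'
    have e2 : Real.exp s < ρ := by
      rw [← Real.exp_log hρ]; exact Real.exp_lt_exp.2 h2
    refine ⟨?_, ?_⟩
    · rw [prNormLp]
      nlinarith
    · rw [prNormLp]
      nlinarith [Real.exp_pos s]
  have hrot : ∀ θ : ℝ, lp (θ, Real.log ρ) = rot θ (ρ, 0) := by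
    intro θ
    simp only [lp, rot, Real.exp_log hρ]
    ext <;> simp <;> ring
  have hcirc : ∀ θ : ℝ, lp (θ, Real.log ρ) ∈ Circ ρ := by
    intro θ
    show (lp (θ, Real.log ρ)).1 ^ 2 + (lp (θ, Real.log ρ)).2 ^ 2 = ρ ^ 2
    rw [prNormLp, Real.exp_log hρ]
  have hδ' : 0 < Real.log ρ - Real.log (ρ - δ) := by
    have := Real.log_lt_log hρδ (by linarith : ρ - δ < ρ)
    linarith
  have hq := hPQ a b m n (Ring (ρ - δ) ρ) ha hb hm hn (prRingOpen _ _) heq
  obtain ⟨ε, hε, hE⟩ := hPE (lP m n) (lQ m n) (lA a b) (lB a b) (lC a b) (Real.log ρ)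
    (Real.log ρ - Real.log (ρ - δ)) hδ' cP cQ cA cB cC hper
    (fun θ s h1 h2 => (hq θ s (hmem θ s h1 h2)).1)
    (fun θ s h1 h2 => (hq θ s (hmem θ s h1 h2)).2)
    (by
      intro θ
      obtain ⟨h1, h2⟩ := hz _ (hcirc θ)
      constructor
      · simp only [lP, h1, h2]; ring
      · simp only [lQ, h1, h2]; ring)
    (by
      intro θ
      obtain ⟨g1, g2, g3, g4⟩ := hg θ
      have hsc := Real.sin_sq_add_cos_sq θ
      have hA : lA a b (θ, Real.log ρ) = κ2 := by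
        simp only [lA, hrot, g1, g2, g3, g4]
        have : (Real.sin θ ^ 2 + Real.cos θ ^ 2) ^ 2 = 1 := by rw [hsc]; ring
        linear_combination κ2 * this
      have hC : lC a b (θ, Real.log ρ) = κ1 := by
        simp only [lC, hrot, g1, g2, g3, g4]
        have : (Real.sin θ ^ 2 + Real.cos θ ^ 2) ^ 2 = 1 := by rw [hsc]; ring
        linear_combination κ1 * this
      rw [hA, hC]
      exact ⟨hk2, hk1⟩)
  have hee : Real.exp (-ε) < 1 := by
    rw [← Real.exp_zero]; exact Real.exp_lt_exp.2 (by linarith)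
  have hep := Real.exp_pos (-ε)
  refine ⟨ρ * (1 - Real.exp (-ε)), by nlinarith, by nlinarith, ?_⟩
  intro q hqR
  have hr1 : (ρ * Real.exp (-ε)) ^ 2 < q.1 ^ 2 + q.2 ^ 2 := by
    have := hqR.1
    rwa [show ρ - ρ * (1 - Real.exp (-ε)) = ρ * Real.exp (-ε) by ring] at this
  have hr2 : q.1 ^ 2 + q.2 ^ 2 < ρ ^ 2 := hqR.2
  have hpos : 0 < q.1 ^ 2 + q.2 ^ 2 := lt_of_le_of_lt (sq_nonneg _) hr1
  obtain ⟨θ, hθ⟩ := prPolar q hpos
  set r := Real.sqrt (q.1 ^ 2 + q.2 ^ 2) with hr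
  have hrpos : 0 < r := Real.sqrt_pos.2 hpos
  have hrr : r ^ 2 = q.1 ^ 2 + q.2 ^ 2 := Real.sq_sqrt hpos.le
  have l1 : ρ * Real.exp (-ε) < r := by
    rw [← hrr] at hr1
    exact lt_of_pow_lt_pow_left₀ 2 hrpos.le hr1
  have l2 : r < ρ := by
    rw [← hrr] at hr2
    exact lt_of_pow_lt_pow_left₀ 2 hρ.le hr2
  have s1 : Real.log ρ - ε < Real.log r := by
    have := Real.log_lt_log (mul_pos hρ hep) l1
    rw [Real.log_mul hρ.ne' hep.ne', Real.log_exp] at this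
    linarith
  have s2 : Real.log r < Real.log ρ := Real.log_lt_log hrpos l2
  obtain ⟨e1, e2⟩ := hE θ (Real.log r) s1 s2
  rw [hθ]
  have hx := Real.exp_pos (Real.log r)
  have f1 : m (lp (θ, Real.log r)) * Real.cos θ + n (lp (θ, Real.log r)) * Real.sin θ = 0 := by
    simp only [lP] at e1
    have := neg_eq_zero.1 e1
    rcases mul_eq_zero.1 this with h | h
    · exact absurd h hx.ne'
    · exact h
  have f2 : n (lp (θ, Real.log r)) * Real.cos θ - m (lp (θ, Real.log r)) * Real.sin θ = 0 := by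
    simp only [lQ] at e2
    rcases mul_eq_zero.1 e2 with h | h
    · exact absurd h hx.ne'
    · exact h
  have hsc := Real.sin_sq_add_cos_sq θ
  constructor
  · linear_combination Real.cos θ * f1 - Real.sin θ * f2 - m (lp (θ, Real.log r)) * hsc
  · linear_combination Real.sin θ * f1 + Real.cos θ * f2 - n (lp (θ, Real.log r)) * hsc

theorem PR (hPE : PE_stmt) (hPP : PP_stmt) (hPQ : PQ_stmt) : PR_stmt := by
  intro a b m n ρ δ κ1 κ2 hρ hδ hδρ ha hb hm hn heq hz hk hg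
  rcases lt_or_ge 0 κ1 with h1 | h1
  · have h2 : κ2 < 0 := by
      by_contra h
      push Not at h
      nlinarith
    exact prMain hPE hPP hPQ a b m n ρ δ κ1 κ2 hρ hδ hδρ ha hb hm hn heq hz h1 h2 hg
  · have h1' : κ1 < 0 := by
      rcases h1.lt_or_eq with h | h
      · exact h
      · rw [h] at hk; simp at hk
    have h2 : 0 < κ2 := by
      by_contra h
      push Not at h
      nlinarith
    refine prMain hPE hPP hPQ (fun z => -a z) (fun z => -b z) m n ρ δ (-κ1) (-κ2) hρ hδ hδρ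
      ha.neg hb.neg hm hn ?_ hz (by linarith) (by linarith) ?_
    · intro q hq
      obtain ⟨e1, e2, e3⟩ := heq q hq
      simp only [prNeg1, prNeg2]
      refine ⟨by linarith, e2, by linarith⟩
    · intro θ
      obtain ⟨g1, g2, g3, g4⟩ := hg θ
      simp only [prNeg1, prNeg2, g1, g2, g3, g4]
      refine ⟨by ring, by ring, by ring, by ring⟩

end NS
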