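import Pool.Agent.helper29.NS.SpecC

/-!
# ns:RX: elementary facts on rotations
-/

namespace NS

open MeasureTheory Filter Topology Set

theorem RX : RX_stmt := by
  intro α q
  have hsc := Real.sin_sq_add_cos_sq α
  refine ⟨?_, ?_, ?_, ?_⟩
  · simp only [rot]
    linear_combination (q.1 ^ 2 + q.2 ^ 2) * hsc
  · ext
    · simp only [rot, Real.cos_neg, Real.sin_neg]
      linear_combination q.1 * hsc
    · simp only [rot, Real.cos_neg, Real.sin_neg]
      linear_combination q.2 * hsc
  · ext
    · simp only [rot, Real.cos_neg, Real.sin_neg]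
      linear_combination q.1 * hsc
    · simp only [rot, Real.cos_neg, Real.sin_neg]
      linear_combination q.2 * hsc
  · set z : ℂ := ⟨q.1, q.2⟩ with hz
    have hn : ‖z‖ = Real.sqrt (q.1 ^ 2 + q.2 ^ 2) := by
      rw [Complex.norm_def, Complex.normSq_apply]
      congr 1
      simp only [hz]
      ring
    refine ⟨Complex.arg z, ?_⟩
    simp only [rot]
    rw [← hn]
    have e1 := Complex.norm_mul_cos_arg z
    have e2 := Complex.norm_mul_sin_arg z
    ext
    · show q.1 = _
      simp only [mul_zero, sub_zero]
      rw [mul_comm]; exact e1.symm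
    · show q.2 = _
      simp only [mul_zero, add_zero]
      rw [mul_comm]; exact e2.symm

end NS
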